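import Pool.Agent.H.MP_40ce5a_co.R1
import Pool.Agent.H.MP_40ce5a_co.R2
import Pool.Agent.H.MP_40ce5a_co.R3
import Pool.Agent.H.MP_40ce5a_co.S

namespace Pool.Agent.Results.MP_40ce5a_co.Yes

open Pool.Agent.H.MP_ea7ca7_co Pool.Agent.H.MP_4a7072_co Pool.Agent.H.MP_40ce5a_co

lemma mem_cl {c : ℤ × ℤ} : c ∈ cl ↔ inA c := by
  unfold cl inA
  simp only [List.mem_filter, List.mem_flatMap, List.mem_map, List.mem_range]
  constructor
  · rintro ⟨⟨j, hj, i, hi, rfl⟩, h⟩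
    exact ⟨h, by simp, by simp only; omega, by simp, by simp only; omega⟩
  · rintro ⟨h, h1, h2, h3, h4⟩
    refine ⟨⟨(c.2 - 1).toNat, by omega, (c.1 - 1).toNat, by omega, ?_⟩, h⟩
    ext <;> simp only <;> omega

lemma rows : ∀ j < 62, rowOK j := by
  intro j hj
  interval_cases j
  exacts [w0, w1, w2, w3, w4, w5, w6, w7, w8, w9, w10, w11, w12, w13, w14, w15, w16, w17, w18, w19, w20, w21, w22, w23, w24, w25, w26, w27, w28, w29, w30, w31, w32, w33, w34, w35, w36, w37, w38, w39, w40, w41, w42, w43, w44, w45, w46, w47, w48, w49, w50, w51, w52, w53, w54, w55, w56, w57, w58, w59, w60, w61]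

lemma box_ok {c : ℤ × ℤ} (h : inB c) : (¬ inA c ∧ cpl c) ∨ (inA c ∧ good c) := by
  obtain ⟨x, y⟩ := c
  obtain ⟨b1, b2, b3, b4⟩ := h
  simp only at b1 b2 b3 b4
  have := rows y.toNat (by omega) x.toNat (by simp; omega)
  rwa [Int.toNat_of_nonneg b1, Int.toNat_of_nonneg b3] at this

lemma good_of {c : ℤ × ℤ} (h : c ∈ cl) : good c := by
  have k := mem_cl.1 h
  have k' := k
  obtain ⟨-, a1, a2, a3, a4⟩ := k'
  rcases box_ok (c := c) ⟨by omega, by omega, by omega, by omega⟩ with e | e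
  · exact absurd k e.1
  · exact e.2

lemma cells_eq (T : List ℕ) (l : List (ℤ × ℤ)) : cellsOf (l.map (F T)) = l.toFinset := by
  unfold cellsOf
  rw [List.map_map]
  exact congrArg List.toFinset (List.map_id' l)

lemma mv_adj {c e : ℤ × ℤ} (h : e ∈ d4) : Adj c (mv c e) := by
  simp only [d4, List.mem_cons, List.not_mem_nil, or_false] at h
  rcases h with rfl | rfl | rfl | rfl <;> simp [Adj, mv]

lemma ag_symm {d d' : D} {t t' : T3} (h : ag d d' t t') : ag d' d t' t := by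
  obtain ⟨h1, h2, h3⟩ := h
  refine ⟨?_, fun k => (h2 k.symm).symm, fun k => (h3 k.symm).symm⟩
  rw [max_comm d'.i, max_comm d'.j]; exact h1.symm

lemma ag3_symm {d d' : D} (h : ag3 d d') : ag3 d' d := ⟨ag_symm h.1, ag_symm h.2.1, ag_symm h.2.2⟩

lemma ag3_refl (d : D) : ag3 d d := ⟨⟨rfl, fun _ => rfl, fun _ => rfl⟩, ⟨rfl, fun _ => rfl, fun _ => rfl⟩,
  ⟨rfl, fun _ => rfl, fun _ => rfl⟩⟩

lemma agree_all {T : List ℕ} {l : List (ℤ × ℤ)} (hb : ∀ c ∈ l, bit c = true) (h : ∀ c ∈ l, loc T c) :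
    ∀ d ∈ l.map (F T), ∀ d' ∈ l.map (F T), agree d d' := by
  intro d hd d' hd'
  obtain ⟨c, hc, rfl⟩ := List.mem_map.1 hd
  obtain ⟨c', hc', rfl⟩ := List.mem_map.1 hd'
  intro k1 k2 k3 k4
  have : c' = c ∨ (∃ e ∈ [((1 : ℤ), (0 : ℤ)), (0, 1), (1, 1), (1, -1)], c' = mv c e) ∨
      ∃ e ∈ [((1 : ℤ), (0 : ℤ)), (0, 1), (1, 1), (1, -1)], c = mv c' e := by
    obtain ⟨x, y⟩ := c
    obtain ⟨x', y'⟩ := c'
    simp only [F] at k1 k2 k3 k4
    simp only [mv, List.mem_cons, List.not_mem_nil, or_false, exists_eq_or_imp, exists_eq_left,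
      Prod.mk.injEq]
    omega
  rcases this with rfl | ⟨e, he, rfl⟩ | ⟨e, he, rfl⟩
  · exact ag3_refl _
  · exact h c hc e he (hb _ hc')
  · exact ag3_symm (h c' hc' e he (hb _ hc))

lemma dd_comm (d e : D) : dd d e = dd e d := by unfold dd; ring

lemma tri_symm {c c' : ℤ × ℤ} (h : tri c c') : tri c' c := by
  unfold tri at h ⊢
  rwa [dd_comm (F T1 c'), dd_comm (F T2 c')]

lemma nb {c c' : ℤ × ℤ} (hc : c ∈ cl) (hc' : c' ∈ cl) (h : Adj c c') : tri c c' := by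
  have : c' = mv c (1, 0) ∨ c' = mv c (0, 1) ∨ c = mv c' (1, 0) ∨ c = mv c' (0, 1) := by
    obtain ⟨a, b⟩ := c
    obtain ⟨a', b'⟩ := c'
    unfold Adj at h
    simp only [mv, Prod.mk.injEq] at h ⊢
    rcases abs_cases (a - a') with k | k <;> rcases abs_cases (b - b') with l | l <;> omega
  rcases this with rfl | rfl | rfl | rfl
  · exact (good_of hc).2.2.2.2.1 (mem_cl.1 hc').1
  · exact (good_of hc).2.2.2.2.2.1 (mem_cl.1 hc').1
  · exact tri_symm ((good_of hc').2.2.2.2.1 (mem_cl.1 hc).1)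
  · exact tri_symm ((good_of hc').2.2.2.2.2.1 (mem_cl.1 hc).1)

lemma poly : IsPolyomino cl.toFinset := by
  refine ⟨⟨(62, 1), by rw [List.mem_toFinset, mem_cl]; decide +kernel⟩, fun a ha b hb => ?_⟩
  refine conn_of_rank (fun c => c ∈ cl.toFinset) (62, 1) rk ?_ a b ha hb
  intro c hc
  rcases (good_of (List.mem_toFinset.1 hc)).2.2.2.2.2.2.2.1 with h | ⟨e, he, h1, h2⟩
  · exact .inl h
  · exact .inr ⟨_, List.mem_toFinset.2 (mem_cl.2 h2), mv_adj he, h1⟩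

lemma nohole : NoHole cl.toFinset := by
  intro a ha b hb
  refine conn_of_rank (fun c => c ∉ cl.toFinset) (0, 0)
    (fun c => if inB c then rk c else
      256 + ((-c.1).toNat + (c.1 - 93).toNat + (-c.2).toNat + (c.2 - 61).toNat)) ?_ a b ha hb
  rintro ⟨x, y⟩ hc
  simp only [List.mem_toFinset, mem_cl] at hc ⊢
  by_cases hB : inB (x, y)
  · rcases box_ok hB with ⟨-, h | ⟨e, he, h1, h2, h3⟩⟩ | ⟨h, -⟩
    · exact .inl h
    · exact .inr ⟨_, h3, mv_adj he, by rw [if_pos hB, if_pos h2]; exact h1⟩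
    · exact absurd h hc
  · right
    have K : ∀ c' : ℤ × ℤ, (c'.1 ≤ 0 ∨ 93 ≤ c'.1 ∨ c'.2 ≤ 0 ∨ 61 ≤ c'.2) → Adj (x, y) c' →
        (-c'.1).toNat + (c'.1 - 93).toNat + (-c'.2).toNat + (c'.2 - 61).toNat <
          (-x).toNat + (x - 93).toNat + (-y).toNat + (y - 61).toNat →
        ∃ c' : ℤ × ℤ, ¬ inA c' ∧ Adj (x, y) c' ∧ (if inB c' then rk c' else
          256 + ((-c'.1).toNat + (c'.1 - 93).toNat + (-c'.2).toNat + (c'.2 - 61).toNat)) <
          if inB (x, y) then rk (x, y) else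
            256 + ((-x).toNat + (x - 93).toNat + (-y).toNat + (y - 61).toNat) := by
      intro c' k1 k2 k3
      refine ⟨c', fun h => by unfold inA at h; omega, k2, ?_⟩
      rw [if_neg hB]
      have : rk c' < 256 := Nat.mod_lt _ (by norm_num)
      split_ifs <;> omega
    unfold inB at hB
    simp only at hB
    by_cases e1 : x < 0
    · exact K (x + 1, y) (by simp only; omega) (by simp [Adj]) (by simp only; omega)
    by_cases e2 : 93 < x
    · exact K (x - 1, y) (by simp only; omega) (by simp [Adj]) (by simp only; omega)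
    by_cases e3 : y < 0
    · exact K (x, y + 1) (by simp only; omega) (by simp [Adj]) (by simp only; omega)
    · exact K (x, y - 1) (by simp only; omega) (by simp [Adj]) (by simp only; omega)

lemma nocross {T U : List ℕ} {f h : P2 → P3} {l : List (ℤ × ℤ)} {bt : ℤ × ℤ → Bool}
    (hb : ∀ c ∈ l, bt c = true)
    (hf : ∀ c ∈ l, ∀ c' ∈ l, dd (F T c) (F T c') = 4 → dist (f (ctr c)) (f (ctr c')) = 1)
    (hh : ∀ c ∈ l, ∀ c' ∈ l, dd (F U c) (F U c') = 4 → dist (h (ctr c)) (h (ctr c')) = 1)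
    (hn : ∀ c ∈ l, bt (mv c (1, 0)) = true → bt (mv c (0, 1)) = true →
      bt (mv c (1, 1)) = true → nx T U c) : ¬ Cross l.toFinset f h := by
  rintro ⟨i, j, ⟨m1, m2, -, k1⟩, ⟨m3, m4, -, k2⟩, ⟨-, -, -, k3⟩, ⟨-, -, -, k4⟩⟩
  rw [List.mem_toFinset] at m1 m2 m3 m4
  have e1 : mv (i - 1, j - 1) (1, 0) = (i, j - 1) := by simp [mv]
  have e2 : mv (i - 1, j - 1) (0, 1) = (i - 1, j) := by simp [mv]
  have e3 : mv (i - 1, j - 1) (1, 1) = (i, j) := by simp [mv]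
  have k := hn _ m1 (by rw [e1]; exact hb _ m3) (by rw [e2]; exact hb _ m2) (by rw [e3]; exact hb _ m4)
  unfold nx at k
  rw [e1, e2, e3] at k
  rcases k with e | e | e | e
  · exact k1 (hf _ m1 _ m2 e)
  · exact k3 (hh _ m1 _ m3 e)
  · exact k2 (hf _ m3 _ m4 e)
  · exact k4 (hh _ m2 _ m4 e)

lemma fold_T {a b c : ℕ} (ha : 0 < a) (hb : 0 < b) (hc : 0 < c) (T G : List ℕ) (l : List (ℤ × ℤ))
    (hl : ∀ s, s ∈ l ↔ inA s) (hf : ∀ s ∈ l, frameB a b c (F T s)) (hag : ∀ s ∈ l, loc T s)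
    (ht : surjB a b c (sj a T G)) (hi : ∀ s ∈ l, li a T G s)
    (hang : ∀ s ∈ l, ∀ t ∈ l, Adj s t → dd (F T s) (F T t) = 4 ∨ dd (F T s) (F T t) = 2) :
    ∃ f, IsFolding l.toFinset a b c f ∧
      ∀ s ∈ l, ∀ t ∈ l, dd (F T s) (F T t) = 4 → dist (f (ctr s)) (f (ctr t)) = 1 := by
  have E : ∀ s, ((F T s).i, (F T s).j) = s := fun s => rfl
  have E1 : ∀ s, (F T s).i = s.1 := fun s => rfl
  have E2 : ∀ s, (F T s).j = s.2 := fun s => rfl
  have F1 : ∀ d ∈ l.map (F T), frameB a b c d := by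
    intro d hd; obtain ⟨s, hs, rfl⟩ := List.mem_map.1 hd; exact hf s hs
  have H : ∀ x y z, sj a T G x y z → hit (l.map (F T)) x y z := fun x y z h =>
    ⟨_, List.mem_map_of_mem ((hl _).2 h.1), h.2⟩
  have B : ∀ i j, has (l.map (F T)) i j → bit (i, j) = true := by
    rintro i j ⟨d, hd, rfl, rfl⟩
    obtain ⟨s, hs, rfl⟩ := List.mem_map.1 hd
    rw [E]; exact ((hl s).1 hs).1
  have I : inj (l.map (F T)) := by
    intro d hd e1 h1 e2 h2 hv d' hd' e1' h1' e2' h2' c1 c2 c3 hv'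
    obtain ⟨s, hs, rfl⟩ := List.mem_map.1 hd
    obtain ⟨t, ht, rfl⟩ := List.mem_map.1 hd'
    unfold valid at hv hv'
    rw [E1, E2] at hv hv' ⊢
    rw [E1, E2]
    have k := hi s hs e1 h1 e2 h2 (fun e => B _ _ (hv.1 e)) (fun e => B _ _ (hv.2.1 e))
      (fun e e' => B _ _ (hv.2.2 e e'))
    have k' := hi t ht e1' h1' e2' h2' (fun e => B _ _ (hv'.1 e)) (fun e => B _ _ (hv'.2.1 e))
      (fun e e' => B _ _ (hv'.2.2 e e'))
    rw [c1, c2, c3, k'] at k
    obtain ⟨-, a1, a2, a3, a4⟩ := (hl s).1 hs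
    obtain ⟨-, b1, b2, b3, b4⟩ := (hl t).1 ht
    omega
  obtain ⟨f, h1, h2⟩ := fold_of ha hb hc F1 (agree_all (fun s hs => ((hl s).1 hs).1) hag)
    ⟨fun u hu v hv w hw => H _ _ _ (ht.1 u hu v hv w hw),
      fun u hu v hv w hw => H _ _ _ (ht.2.1 u hu v hv w hw),
      fun u hu v hv w hw => H _ _ _ (ht.2.2 u hu v hv w hw)⟩ I (by
    intro d hd e he h
    obtain ⟨s, hs, rfl⟩ := List.mem_map.1 hd
    obtain ⟨t, ht, rfl⟩ := List.mem_map.1 he
    rw [E, E] at h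
    exact hang s hs t ht h)
  rw [cells_eq] at h1
  refine ⟨f, h1, fun s hs t ht e => ?_⟩
  have := h2 (F T s) (List.mem_map_of_mem hs) (F T t) (List.mem_map_of_mem ht) e
  rwa [E, E] at this

/-- A polyomino folding onto the boxes `8 × 8 × 52` and `2 × 28 × 28` whose two crease sets are
disjoint and do not cross. -/
theorem result : ∃ (A : Finset (ℤ × ℤ)) (f h : P2 → P3), IsPolyomino A ∧ NoHole A ∧
    IsFolding A 8 8 52 f ∧ IsFolding A 2 28 28 h ∧
    (∀ s t, ¬ (Crease A f s t ∧ Crease A h s t)) ∧ ¬ Cross A f h ∧ ¬ Cross A h f := by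
  obtain ⟨f, hf, kf⟩ := fold_T (by norm_num) (by norm_num) (by norm_num) T1 G1 cl (fun _ => mem_cl)
    (fun s hs => (good_of hs).1) (fun s hs => (good_of hs).2.2.1) t1
    (fun s hs => (good_of hs).2.2.2.2.2.2.2.2.1) (fun s hs t ht h =>
      (nb hs ht h).elim (fun e => .inl e.1) fun e => e.elim (fun e => .inl e.1) fun e => .inr e.1)
  obtain ⟨h, hh, kh⟩ := fold_T (by norm_num) (by norm_num) (by norm_num) T2 G2 cl (fun _ => mem_cl)
    (fun s hs => (good_of hs).2.1) (fun s hs => (good_of hs).2.2.2.1) t2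
    (fun s hs => (good_of hs).2.2.2.2.2.2.2.2.2) (fun s hs t ht h =>
      (nb hs ht h).elim (fun e => .inl e.2) fun e => e.elim (fun e => .inr e.2) fun e => .inl e.2)
  refine ⟨cl.toFinset, f, h, poly, nohole, hf, hh, ?_,
    nocross (fun c hc => (mem_cl.1 hc).1) kf kh fun c hc a b d =>
      ((good_of hc).2.2.2.2.2.2.1 a b d).1,
    nocross (fun c hc => (mem_cl.1 hc).1) kh kf fun c hc a b d =>
      ((good_of hc).2.2.2.2.2.2.1 a b d).2⟩
  rintro s t ⟨⟨m1, m2, m3, k1⟩, -, -, -, k2⟩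
  rw [List.mem_toFinset] at m1 m2
  rcases nb m1 m2 m3 with e | e | e
  · exact k1 (kf _ m1 _ m2 e.1)
  · exact k1 (kf _ m1 _ m2 e.1)
  · exact k2 (kh _ m1 _ m2 e.2)

end Pool.Agent.Results.MP_40ce5a_co.Yes
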